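import Mathlib
import Pool.Agent.HuaVal.Quad

/-!
Ultraproducts of sequences of Hua systems.
-/

set_option autoImplicit false

open Filter

namespace Pool.Agent.HuaCpt89

open Pool.Agent.HuaVal

section

variable (A : ℕ → Type) [∀ n, AddCommGroup (A n)]

/-- The sequences which vanish almost everywhere. -/
def Nul : AddSubgroup (∀ n, A n) where
  carrier := {f | ∀ᶠ n in (hyperfilter ℕ : Filter ℕ), f n = 0}
  zero_mem' := Eventually.of_forall fun _ => rfl
  add_mem' := by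
    intro f g hf hg
    filter_upwards [hf, hg] with n h1 h2
    rw [Pi.add_apply, h1, h2, add_zero]
  neg_mem' := by
    intro f hf
    filter_upwards [hf] with n h1
    rw [Pi.neg_apply, h1, neg_zero]

/-- The ultraproduct. -/
abbrev UPr : Type := (∀ n, A n) ⧸ Nul A

variable {A}

/-- The class of a sequence. -/
def mk (f : ∀ n, A n) : UPr A := QuotientAddGroup.mk f

lemma mk_surj (a : UPr A) : ∃ f, mk f = a := QuotientAddGroup.mk_surjective a

lemma mk_add (f g : ∀ n, A n) : mk (f + g) = mk f + mk g := rfl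

lemma mk_sub (f g : ∀ n, A n) : mk (f - g) = mk f - mk g := rfl

lemma mk_neg (f : ∀ n, A n) : mk (-f) = -mk f := rfl

lemma mk_zero : mk (0 : ∀ n, A n) = 0 := rfl

lemma mk_nsmul (k : ℕ) (f : ∀ n, A n) : mk (k • f) = k • mk f := rfl

lemma mk_eq_iff {f g : ∀ n, A n} : mk f = mk g ↔
    ∀ᶠ n in (hyperfilter ℕ : Filter ℕ), f n = g n := by
  have h1 : mk f = mk g ↔ -f + g ∈ Nul A := QuotientAddGroup.eq
  rw [h1]
  have h2 : -f + g ∈ Nul A ↔ ∀ᶠ n in (hyperfilter ℕ : Filter ℕ), (-f + g) n = 0 := Iff.rfl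
  rw [h2]
  constructor
  · intro h
    filter_upwards [h] with n hn
    rw [Pi.add_apply, Pi.neg_apply] at hn
    rw [neg_add_eq_zero] at hn
    exact hn
  · intro h
    filter_upwards [h] with n hn
    rw [Pi.add_apply, Pi.neg_apply, hn, neg_add_cancel]

lemma mk_eq_zero_iff {f : ∀ n, A n} : mk f = 0 ↔
    ∀ᶠ n in (hyperfilter ℕ : Filter ℕ), f n = 0 := by
  rw [← mk_zero, mk_eq_iff]
  rfl

lemma mk_ne_iff {f g : ∀ n, A n} : mk f ≠ mk g ↔
    ∀ᶠ n in (hyperfilter ℕ : Filter ℕ), f n ≠ g n := by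
  rw [ne_eq, mk_eq_iff, ← Ultrafilter.eventually_not]

lemma mk_ne_zero_iff {f : ∀ n, A n} : mk f ≠ 0 ↔
    ∀ᶠ n in (hyperfilter ℕ : Filter ℕ), f n ≠ 0 := by
  rw [ne_eq, mk_eq_zero_iff, ← Ultrafilter.eventually_not]

/-- A representative. -/
noncomputable def rep (a : UPr A) : ∀ n, A n := (mk_surj a).choose

lemma mk_rep (a : UPr A) : mk (rep a) = a := (mk_surj a).choose_spec

/-- The operation on the ultraproduct. -/
noncomputable def JU (J : ∀ n, A n → A n → A n) (a b : UPr A) : UPr A :=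
  mk fun n => J n (rep a n) (rep b n)

lemma JU_mk (J : ∀ n, A n → A n → A n) (f g : ∀ n, A n) :
    JU J (mk f) (mk g) = mk fun n => J n (f n) (g n) := by
  rw [JU, mk_eq_iff]
  filter_upwards [mk_eq_iff.mp (mk_rep (mk f)), mk_eq_iff.mp (mk_rep (mk g))] with n h1 h2
  rw [h1, h2]

theorem JSys.ultraproduct {J : ∀ n, A n → A n → A n} (hJ : ∀ n, JSys (J n)) : JSys (JU J) := by
  constructor
  · intro a
    obtain ⟨f, rfl⟩ := mk_surj a
    intro hf
    rw [← mk_zero, JU_mk, mk_eq_iff]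
    filter_upwards [mk_ne_zero_iff.mp hf] with n hn
    exact (hJ n).zero _ hn
  · intro a x
    obtain ⟨f, rfl⟩ := mk_surj a
    obtain ⟨g, rfl⟩ := mk_surj x
    intro hf
    rw [JU_mk, JU_mk, mk_eq_iff]
    filter_upwards [mk_ne_zero_iff.mp hf] with n hn
    exact (hJ n).inv _ _ hn
  · intro a
    obtain ⟨f, rfl⟩ := mk_surj a
    intro hf
    rw [JU_mk, mk_eq_iff]
    filter_upwards [mk_ne_zero_iff.mp hf] with n hn
    exact (hJ n).self _ hn
  · intro a b x y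
    obtain ⟨f, rfl⟩ := mk_surj a
    obtain ⟨g, rfl⟩ := mk_surj b
    obtain ⟨u, rfl⟩ := mk_surj x
    obtain ⟨v, rfl⟩ := mk_surj y
    intro hf hg
    rw [← mk_add, JU_mk, JU_mk, JU_mk, JU_mk, JU_mk, JU_mk, ← mk_add, mk_eq_iff]
    filter_upwards [mk_ne_zero_iff.mp hf, mk_ne_zero_iff.mp hg] with n hn hn'
    exact (hJ n).add _ _ _ _ hn hn'
  · intro a x
    obtain ⟨f, rfl⟩ := mk_surj a
    obtain ⟨g, rfl⟩ := mk_surj x
    intro hf
    rw [← mk_neg, JU_mk, JU_mk, ← mk_neg, mk_eq_iff]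
    filter_upwards [mk_ne_zero_iff.mp hf] with n hn
    exact (hJ n).neg _ _ hn
  · intro a x
    obtain ⟨f, rfl⟩ := mk_surj a
    obtain ⟨g, rfl⟩ := mk_surj x
    intro hf
    rw [← mk_neg, JU_mk, JU_mk, mk_eq_iff]
    filter_upwards [mk_ne_zero_iff.mp hf] with n hn
    exact (hJ n).negl _ _ hn
  · intro a b x
    obtain ⟨f, rfl⟩ := mk_surj a
    obtain ⟨g, rfl⟩ := mk_surj b
    obtain ⟨u, rfl⟩ := mk_surj x
    intro hf hg
    rw [JU_mk, JU_mk, JU_mk, JU_mk, JU_mk, mk_eq_iff]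
    filter_upwards [mk_ne_zero_iff.mp hf, mk_ne_zero_iff.mp hg] with n hn hn'
    exact (hJ n).comp _ _ _ hn hn'
  · intro e x y
    obtain ⟨f, rfl⟩ := mk_surj e
    obtain ⟨g, rfl⟩ := mk_surj x
    obtain ⟨u, rfl⟩ := mk_surj y
    intro hf hg hu hgu
    rw [← mk_sub, JU_mk, JU_mk, JU_mk, ← mk_sub, JU_mk, ← mk_sub, mk_eq_iff]
    filter_upwards [mk_ne_zero_iff.mp hf, mk_ne_zero_iff.mp hg, mk_ne_zero_iff.mp hu,
      mk_ne_iff.mp hgu] with n h1 h2 h3 h4
    exact (hJ n).hua _ _ _ h1 h2 h3 h4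
  · intro a b x
    obtain ⟨f, rfl⟩ := mk_surj a
    obtain ⟨g, rfl⟩ := mk_surj b
    obtain ⟨u, rfl⟩ := mk_surj x
    intro hf hg hfg
    rw [← mk_sub, JU_mk, JU_mk, ← mk_sub, JU_mk, JU_mk, JU_mk, mk_eq_iff]
    filter_upwards [mk_ne_zero_iff.mp hf, mk_ne_zero_iff.mp hg, mk_ne_iff.mp hfg] with n h1 h2 h3
    exact (hJ n).sub _ _ _ h1 h2 h3

lemma H_mk (J : ∀ n, A n → A n → A n) (e x y : ∀ n, A n) :
    H (JU J) (mk e) (mk x) (mk y) = mk fun n => H (J n) (e n) (x n) (y n) := by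
  by_cases hx : mk x = 0
  · rw [hx, H_zero_left, ← mk_zero, mk_eq_iff]
    filter_upwards [mk_eq_zero_iff.mp hx] with n hn
    rw [hn, H_zero_left]
    rfl
  · rw [H_of_ne hx, JU_mk, JU_mk, mk_eq_iff]
    filter_upwards [mk_ne_zero_iff.mp hx] with n hn
    rw [H_of_ne hn]

lemma T3_mk (J : ∀ n, A n → A n → A n) (e x y z c : ∀ n, A n) :
    T3 (JU J) (mk e) (mk x) (mk y) (mk z) (mk c) =
      mk fun n => T3 (J n) (e n) (x n) (y n) (z n) (c n) := by
  simp only [T3, ← mk_add, H_mk]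
  rfl

end

/-- Compactness: the vanishing of the third difference in characteristic 0 implies it for all
Hua systems without small torsion. -/
theorem exists_bound
    (h0 : ∀ (A : Type) [AddCommGroup A], (∀ (n : ℕ) (a : A), n ≠ 0 → n • a = 0 → a = 0) →
      ∀ J : A → A → A, JSys J → ∀ e, e ≠ 0 → ∀ x y z c, T3 J e x y z c = 0) :
    ∃ N : ℕ, ∀ (A : Type) [AddCommGroup A],
      (∀ (n : ℕ) (a : A), n ≠ 0 → n ≤ N → n • a = 0 → a = 0) →
      ∀ J : A → A → A, JSys J → ∀ e, e ≠ 0 → ∀ x y z c, T3 J e x y z c = 0 := by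
  by_contra hcon
  push Not at hcon
  choose A inst htf J hJ e he x y z c hT using hcon
  have h1 := h0 (UPr A) (by
    intro k a hk
    obtain ⟨f, rfl⟩ := mk_surj a
    rw [← mk_nsmul, mk_eq_zero_iff, mk_eq_zero_iff]
    intro h
    have h4 : ∀ᶠ n in (atTop : Filter ℕ), k ≤ n := eventually_ge_atTop k
    have h3 : ∀ᶠ n in (hyperfilter ℕ : Filter ℕ), k ≤ n := by
      rw [← Nat.cofinite_eq_atTop] at h4
      exact hyperfilter_le_cofinite h4
    filter_upwards [h, h3] with n hn hkn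
    exact htf n k _ hk hkn hn) (JU J) (JSys.ultraproduct hJ) (mk e)
    (mk_ne_zero_iff.mpr (Eventually.of_forall he)) (mk x) (mk y) (mk z) (mk c)
  rw [T3_mk, mk_eq_zero_iff] at h1
  obtain ⟨n, hn⟩ := h1.exists
  exact hT n hn

end Pool.Agent.HuaCpt89
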