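import Mathlib
import Pool.Agent.HuaCpt89.Ultra
import Pool.Agent.HuaVal.Main
import Pool.Agent.HuaOne84.Defs

/-!
Hua systems of large characteristic, given the case of characteristic 0.
-/

set_option autoImplicit false

namespace Pool.Agent.HuaCpt89

open Pool.Agent.HuaVal Pool.Agent.HuaOne84

/-- If the third difference vanishes for all torsion-free Hua systems, then there is a number `N`
such that all Hua systems on nonzero groups without elements of order `2, ..., N` come from
quadratic Jordan division rings. -/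
theorem jordan_of_char_zero
    (h0 : ∀ (A : Type) [AddCommGroup A], (∀ (n : ℕ) (a : A), n ≠ 0 → n • a = 0 → a = 0) →
      ∀ J : A → A → A, JSys J → ∀ e, e ≠ 0 → ∀ x y z c, T3 J e x y z c = 0) :
    ∃ N : ℕ, ∀ (A : Type) [AddCommGroup A], Nontrivial A →
      (∀ (n : ℕ) (a : A), n ≠ 0 → n ≤ N → n • a = 0 → a = 0) →
      ∀ j : A → Option A → Option A, IsHua j → FromJordan j := by
  obtain ⟨N, hN⟩ := exists_bound h0
  refine ⟨max N 3, ?_⟩
  intro A _ hnt htf j hj
  obtain ⟨J, hJ, hjJ⟩ := exists_J hj
  obtain ⟨e, he⟩ := exists_ne (0 : A)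
  have h2 : ∀ a : A, a + a = 0 → a = 0 := by
    intro a ha
    refine htf 2 a (by norm_num) (by omega) ?_
    rw [← ha]
    abel
  have h3 : ∀ a : A, a + a + a = 0 → a = 0 := by
    intro a ha
    refine htf 3 a (by norm_num) (by omega) ?_
    rw [← ha]
    abel
  exact jordan_of_T3 h2 h3 j hJ hjJ
    (hN A (fun n a hn hnN => htf n a hn (by omega)) J hJ) he

end Pool.Agent.HuaCpt89
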